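import Pool.Agent.J4.H17.SR.Defs

set_option autoImplicit false

namespace Pool.Agent.J4.H99.SRins
open NumberField
open Pool.Agent.K4H33.SK (Qbar GQ Fixes IsZeta AbelianRoot IsTorsionOrder IsArtin cnt)
open Pool.Agent.J4.H17.SR

theorem isGalois_Qbar : IsGalois ℚ Qbar := by
  have h1 : Algebra.IsAlgebraic ℚ Qbar := AlgebraicClosure.isAlgebraic ℚ
  have : IsAlgClosure ℚ Qbar := ⟨inferInstance, inferInstance⟩
  exact IsAlgClosure.isGalois ℚ Qbar

theorem mem_fixing (F : Sub) (σ : GQ) : σ ∈ F.fixingSubgroup ↔ Fixes F σ := by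
  rw [IntermediateField.mem_fixingSubgroup_iff]
  rfl

theorem mem_of_fixed (F : Sub) (x : Qbar) (h : ∀ τ : GQ, Fixes F τ → τ x = x) : x ∈ F := by
  have : IsGalois ℚ Qbar := isGalois_Qbar
  have h1 : IntermediateField.fixedField F.fixingSubgroup = F := InfiniteGalois.fixedField_fixingSubgroup F
  rw [← h1]
  intro τ
  exact h τ.1 ((mem_fixing F τ.1).1 τ.2)

theorem apply_mem {K H : Sub} (hKH : K ≤ H) (hab : AbelianOver K H) {σ : GQ} (hσ : Fixes K σ)
    {x : Qbar} (hx : x ∈ H) : σ x ∈ H := by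
  apply mem_of_fixed
  intro τ hτ
  have h1 := hab σ τ hσ (fun y hy => hτ y (hKH hy)) x hx
  rw [← h1, hτ x hx]

theorem symm_fixes {K : Sub} {σ : GQ} (hσ : Fixes K σ) : Fixes K σ⁻¹ := by
  rw [← mem_fixing] at *
  exact inv_mem hσ

theorem exists_quotient (K H : Sub) [FiniteDimensional ℚ H] (hKH : K ≤ H) (hab : AbelianOver K H) :
    ∃ (G : Type) (_ : CommGroup G) (_ : Fintype G) (π : K.fixingSubgroup →* G),
      Function.Surjective π ∧ (∀ σ : K.fixingSubgroup, π σ = 1 ↔ Fixes H σ) ∧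
      ∀ J : Subgroup G, ∃ L : Sub, K ≤ L ∧ L ≤ H ∧
        ∀ σ : K.fixingSubgroup, Fixes L σ ↔ π σ ∈ J := by
  have : IsGalois ℚ Qbar := isGalois_Qbar
  set N : Subgroup K.fixingSubgroup := H.fixingSubgroup.subgroupOf K.fixingSubgroup with hN
  have memN : ∀ σ : K.fixingSubgroup, σ ∈ N ↔ Fixes H σ := by
    intro σ
    rw [hN, Subgroup.mem_subgroupOf, mem_fixing]
  have hfix : ∀ σ : K.fixingSubgroup, Fixes K σ := fun σ => (mem_fixing K σ.1).1 σ.2
  have hnormal : N.Normal := by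
    constructor
    intro τ hτ σ
    rw [memN] at hτ ⊢
    intro x hx
    have h1 : (σ.1)⁻¹ x ∈ H := apply_mem hKH hab (symm_fixes (hfix σ)) hx
    show σ.1 (τ.1 ((σ.1)⁻¹ x)) = x
    rw [hτ _ h1]
    exact σ.1.apply_symm_apply x
  have hcomm : ∀ a b : K.fixingSubgroup ⧸ N, a * b = b * a := by
    intro a b
    induction a using QuotientGroup.induction_on with | H σ =>
    induction b using QuotientGroup.induction_on with | H τ =>
    rw [← QuotientGroup.mk_mul, ← QuotientGroup.mk_mul, QuotientGroup.eq, memN]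
    intro x hx
    show (σ.1 * τ.1)⁻¹ (τ.1 (σ.1 x)) = x
    rw [← hab σ.1 τ.1 (hfix σ) (hfix τ) x hx]
    exact (σ.1 * τ.1).symm_apply_apply x
  have hfin : Finite (K.fixingSubgroup ⧸ N) := by
    let f : K.fixingSubgroup ⧸ N → (H →ₐ[ℚ] Qbar) := Quotient.lift
      (fun σ : K.fixingSubgroup => (σ.1 : Qbar →ₐ[ℚ] Qbar).comp H.val) (by
        intro σ τ hst
        rw [← Quotient.eq_iff_equiv] at hst
        have h2 : (σ : K.fixingSubgroup ⧸ N) = (τ : K.fixingSubgroup ⧸ N) := hst
        rw [QuotientGroup.eq, memN] at h2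
        ext x
        have h3 := h2 x.1 x.2
        have h4 : (σ.1)⁻¹ (τ.1 x.1) = x.1 := h3
        have h5 : σ.1 ((σ.1)⁻¹ (τ.1 x.1)) = τ.1 x.1 := σ.1.apply_symm_apply _
        rw [h4] at h5
        exact h5)
    refine Finite.of_injective f ?_
    intro a b
    induction a using QuotientGroup.induction_on with | H σ =>
    induction b using QuotientGroup.induction_on with | H τ =>
    intro h
    rw [QuotientGroup.eq, memN]
    intro x hx
    have h1 : σ.1 x = τ.1 x := DFunLike.congr_fun h ⟨x, hx⟩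
    show (σ.1)⁻¹ (τ.1 x) = x
    rw [← h1]
    exact σ.1.symm_apply_apply x
  refine ⟨K.fixingSubgroup ⧸ N, { (inferInstance : Group (K.fixingSubgroup ⧸ N)) with
    mul_comm := hcomm }, Fintype.ofFinite _, QuotientGroup.mk' N, QuotientGroup.mk'_surjective N,
    fun σ => by
      rw [← memN]
      exact QuotientGroup.eq_one_iff σ, ?_⟩
  intro J
  set P : Subgroup GQ := (J.comap (QuotientGroup.mk' N)).map K.fixingSubgroup.subtype with hP
  have memP : ∀ σ : K.fixingSubgroup, σ.1 ∈ P ↔ QuotientGroup.mk' N σ ∈ J := by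
    intro σ
    rw [hP, Subgroup.mem_map]
    constructor
    · rintro ⟨τ, hτ, h⟩
      have : τ = σ := Subtype.ext h
      rw [← this]
      exact hτ
    · intro h
      exact ⟨σ, h, rfl⟩
  have hPK : P ≤ K.fixingSubgroup := by
    rw [hP]
    rintro _ ⟨τ, _, rfl⟩
    exact τ.2
  have hHP : H.fixingSubgroup ≤ P := by
    intro σ hσ
    have hσK : σ ∈ K.fixingSubgroup := by
      rw [mem_fixing] at hσ ⊢
      exact fun x hx => hσ x (hKH hx)
    refine (memP ⟨σ, hσK⟩).2 ?_
    have : QuotientGroup.mk' N ⟨σ, hσK⟩ = 1 := by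
      rw [QuotientGroup.mk'_apply, QuotientGroup.eq_one_iff, memN]
      exact (mem_fixing H σ).1 hσ
    rw [this]
    exact one_mem J
  have hopen : IsOpen (P : Set GQ) :=
    Subgroup.isOpen_mono hHP (IntermediateField.fixingSubgroup_isOpen H)
  have hclosed : IsClosed (P : Set GQ) := Subgroup.isClosed_of_isOpen P hopen
  have hfixP : (IntermediateField.fixedField P).fixingSubgroup = P :=
    InfiniteGalois.fixingSubgroup_fixedField ⟨P, hclosed⟩
  refine ⟨IntermediateField.fixedField P, ?_, ?_, ?_⟩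
  · intro x hx τ
    exact (mem_fixing K τ.1).1 (hPK τ.2) x hx
  · intro x hx
    apply mem_of_fixed
    intro τ hτ
    exact hx ⟨τ, hHP ((mem_fixing H τ).2 hτ)⟩
  · intro σ
    rw [← mem_fixing, hfixP]
    exact memP σ

end Pool.Agent.J4.H99.SRins
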