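import Pool.Agent.J4.H17.SR.Defs

set_option autoImplicit false

namespace Pool.Agent.J4.H99.SRins
open NumberField
open Pool.Agent.K4H33.SK (Qbar GQ Fixes IsZeta AbelianRoot IsTorsionOrder IsArtin cnt)
open Pool.Agent.J4.H17.SR

theorem exists_torsion {L H : Sub} (hLH : L ≤ H) {W : ℕ} (hW : IsTorsionOrder H W) :
    ∃ W' : ℕ, IsTorsionOrder L W' ∧ W' ∣ W := by
  obtain ⟨hW0, hWi⟩ := hW
  let U : Subgroup Qbarˣ :=
    { carrier := {u | (u : Qbar) ∈ L ∧ u ^ W = 1}
      mul_mem' := by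
        rintro a b ⟨ha, ha'⟩ ⟨hb, hb'⟩
        refine ⟨?_, ?_⟩
        · rw [Units.val_mul]
          exact mul_mem ha hb
        · rw [mul_pow, ha', hb', one_mul]
      one_mem' := by
        refine ⟨?_, one_pow W⟩
        rw [Units.val_one]
        exact one_mem L
      inv_mem' := by
        rintro a ⟨ha, ha'⟩
        refine ⟨?_, ?_⟩
        · rw [Units.val_inv_eq_inv_val]
          exact inv_mem ha
        · rw [inv_pow, ha', inv_one] }
  have memU : ∀ u : Qbarˣ, u ∈ U ↔ (u : Qbar) ∈ L ∧ u ^ W = 1 := fun u => Iff.rfl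
  have hUle : U ≤ rootsOfUnity W Qbar := by
    intro u hu
    rw [mem_rootsOfUnity]
    exact hu.2
  have : NeZero W := ⟨hW0.ne'⟩
  have hfin0 : Finite (rootsOfUnity W Qbar) := inferInstance
  have hfin : Finite U := Set.Finite.subset (s := (rootsOfUnity W Qbar : Set Qbarˣ)) hfin0 hUle
  set W' := Nat.card U with hW'
  have hW'0 : 0 < W' := Nat.card_pos
  have : NeZero W' := ⟨hW'0.ne'⟩
  have hle : U ≤ rootsOfUnity W' Qbar := by
    intro u hu
    rw [mem_rootsOfUnity]
    have h1 : (⟨u, hu⟩ : U) ^ Nat.card U = 1 := pow_card_eq_one'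
    exact congrArg Subtype.val h1
  have hcard : ∀ n : ℕ, n ≠ 0 → Nat.card (rootsOfUnity n Qbar) ≤ n := by
    intro n hn
    have : NeZero n := ⟨hn⟩
    exact card_rootsOfUnity Qbar n
  have heq : U = rootsOfUnity W' Qbar := by
    refine Subgroup.eq_of_le_of_card_ge hle ?_
    exact hcard W' hW'0.ne'
  refine ⟨W', ⟨hW'0, ?_⟩, ?_⟩
  · intro ξ
    constructor
    · rintro ⟨h1, n, hn, h2⟩
      have h3 : ξ ^ W = 1 := (hWi ξ).1 ⟨hLH h1, n, hn, h2⟩
      have h0 : ξ ≠ 0 := by
        rintro rfl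
        rw [zero_pow hW0.ne'] at h3
        exact zero_ne_one h3
      have h4 : Units.mk0 ξ h0 ∈ U := ⟨h1, Units.ext (by simpa using h3)⟩
      have h5 := hle h4
      rw [mem_rootsOfUnity] at h5
      simpa using congrArg Units.val h5
    · intro h
      have h0 : ξ ≠ 0 := by
        rintro rfl
        rw [zero_pow hW'0.ne'] at h
        exact zero_ne_one h
      have h4 : Units.mk0 ξ h0 ∈ rootsOfUnity W' Qbar := by
        rw [mem_rootsOfUnity]
        exact Units.ext (by simpa using h)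
      rw [← heq] at h4
      exact ⟨h4.1, W', hW'0, h⟩
  · have hd : Nat.card U ≤ Nat.gcd W' W := by
      have h1 : U ≤ rootsOfUnity (Nat.gcd W' W) Qbar := by
        intro u hu
        rw [mem_rootsOfUnity]
        have h2 : u ^ W' = 1 := by
          have := hle hu
          rwa [mem_rootsOfUnity] at this
        exact pow_gcd_eq_one.2 ⟨h2, hu.2⟩
      have hg : Nat.gcd W' W ≠ 0 := (Nat.gcd_pos_of_pos_left _ hW'0).ne'
      have : NeZero (Nat.gcd W' W) := ⟨hg⟩
      exact (Subgroup.card_le_of_le h1).trans (hcard _ hg)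
    have h2 : Nat.gcd W' W ∣ W' := Nat.gcd_dvd_left _ _
    have h3 : Nat.gcd W' W = W' := le_antisymm (Nat.le_of_dvd hW'0 h2) hd
    rw [← h3]
    exact Nat.gcd_dvd_right _ _

end Pool.Agent.J4.H99.SRins
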