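import Pool.Agent.J4.H17.SR.Final
import Pool.Agent.J4.H17.SR.DOWN

/-! The continuation of the partial zeta functions from those of subfields (norm relations). -/

set_option autoImplicit false

namespace Pool.Agent.J4.H99.SRins
open NumberField
open Pool.Agent.K4H33.SK (Qbar GQ Fixes IsZeta AbelianRoot IsTorsionOrder fixes_iff
  mem_of_fixed agree_iff)
open Pool.Agent.K4H33.SK.Stmt (Ideals Cop prd cnt IsArtin)
open Pool.Agent.J4.H17.SR

open Classical in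
/-- If all subfields `L` belonging to the prime `2` have continued partial zeta functions, so has `H`. -/
theorem cont_of_all (ι : Qbar →+* ℂ) (K H : Sub) [NumberField K] [FiniteDimensional ℚ H]
    (hKH : K ≤ H) (hab : AbelianOver K H) (𝔣 : Ideals K) (art : Ideals K → GQ)
    (hart : IsArtin K H 𝔣 art)
    (h : ∀ L : Sub, K ≤ L → L ≤ H → DegreePrimeTo 2 L H →
      (∀ q : ℕ, q.Prime → q ≠ 2 → CyclicSylow q K L) →
        ∃ n : ℕ, ¬ 2 ∣ n ∧ StarkUpTo n ι K L 𝔣 art) :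
    ∀ σ : GQ, Fixes K σ → ∃ Z, IsZeta (cnt K H 𝔣 art σ) Z := by
  obtain ⟨W, hW⟩ := exists_torsionOrder H
  obtain ⟨G, _, _, π, hπs, hπ, hJ⟩ := exists_quotient K H hKH hab
  choose rep hrep using hπs
  obtain ⟨n, N, J, a, hn, hg, hrel⟩ := exists_norm_relation G 2 Nat.prime_two
  have hn0 : (n : ℂ) ≠ 0 := by
    intro h0
    apply hn
    rw [Nat.cast_eq_zero] at h0
    rw [h0]
    exact dvd_zero _
  -- the subfields
  have hZ : ∀ i, ∃ L : Sub, ∃ Z : GQ → ℂ → ℂ, L ≤ H ∧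
      (∀ σ : K.fixingSubgroup, Fixes L σ ↔ π σ ∈ J i) ∧
      ∀ σ : GQ, Fixes K σ → IsZeta (cnt K L 𝔣 art σ) (Z σ) := by
    intro i
    obtain ⟨L, hKL, hLH, hL⟩ := hJ (J i)
    have h1 : DegreePrimeTo 2 L H := by
      intro σ hσ hσℓ
      have hσK : Fixes K σ := hσ.mono hKL
      have h1 := (hL ⟨σ, fixes_iff.1 hσK⟩).1 hσ
      have h2 := (hπ (⟨σ, fixes_iff.1 hσK⟩ ^ 2)).2 hσℓ
      rw [map_pow] at h2
      exact (hπ ⟨σ, fixes_iff.1 hσK⟩).1 ((hg i).1 _ h1 h2)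
    have h2 : ∀ q : ℕ, q.Prime → q ≠ 2 → CyclicSylow q K L := by
      intro q hq hqℓ σ τ hσ hτ hσq hτq
      have h1 := (hL (⟨σ, fixes_iff.1 hσ⟩ ^ q)).1 hσq
      have h2 := (hL (⟨τ, fixes_iff.1 hτ⟩ ^ q)).1 hτq
      rw [map_pow] at h1 h2
      rcases (hg i).2 q hq hqℓ _ _ h1 h2 with h3 | ⟨k, hk⟩
      · exact Or.inl ((hL ⟨σ, fixes_iff.1 hσ⟩).2 h3)
      · refine Or.inr ⟨k, ?_⟩
        rw [agree_iff]
        have h4 := (hL ((⟨σ, fixes_iff.1 hσ⟩ ^ k)⁻¹ * ⟨τ, fixes_iff.1 hτ⟩)).2 (by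
          rw [map_mul, map_inv, map_pow, mul_comm]; exact hk)
        exact h4
    obtain ⟨m, -, hm⟩ := h L hKL hLH h1 h2
    obtain ⟨W', hW', -⟩ := exists_torsion hLH hW
    obtain ⟨Z, ε, -, -, hlim, -⟩ := hm W' hW'
    exact ⟨L, Z, hLH, hL, fun σ hσ => (hlim σ hσ).1⟩
  choose L Z hLH hL hZ using hZ
  have key : ∀ (x : G), ∃ Z, IsZeta (cnt K H 𝔣 art (rep x)) Z := by
    intro x
    refine (comb (Finset.univ : Finset (Fin N × G)) (fun p => (a p.1 p.2 : ℂ) / n)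
      (fun p => cnt K (L p.1) 𝔣 art (rep (x * p.2))) (cnt K H 𝔣 art (rep x))
      (fun p _ => ⟨_, hZ p.1 (rep (x * p.2)) (fixes_iff.2 (rep (x * p.2)).2)⟩) fun k _ => ?_).1
    have h1 := comb_identity J a n hrel (fun y => (cnt K H 𝔣 art (rep y) k : ℂ)) x
    have h2 : ∀ (i : Fin N) (g : G), (cnt K (L i) 𝔣 art (rep (x * g)) k : ℂ) =
        ∑ y : G, (if (x * g)⁻¹ * y ∈ J i then (1 : ℂ) else 0) * (cnt K H 𝔣 art (rep y) k : ℂ) := by
      intro i g
      have h3 := cnt_sum K H (L i) 𝔣 art hart.fix (hLH i) G π hπ (J i) (hL i) rep hrep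
        (rep (x * g)) k
      rw [hrep] at h3
      change cnt K (L i) 𝔣 art (rep (x * g)) k = ∑ y : G, if (x * g)⁻¹ * y ∈ J i then
        cnt K H 𝔣 art (rep y) k else 0 at h3
      rw [h3]
      push_cast
      refine Finset.sum_congr rfl fun y _ => ?_
      split_ifs <;> simp
    simp only [← h2] at h1
    rw [Fintype.sum_prod_type]
    apply mul_left_cancel₀ hn0
    rw [← h1, Finset.mul_sum]
    refine Finset.sum_congr rfl fun i _ => ?_
    rw [Finset.mul_sum]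
    refine Finset.sum_congr rfl fun g _ => ?_
    field_simp
  intro σ hσ
  obtain ⟨Z, hZ⟩ := key (π ⟨σ, fixes_iff.1 hσ⟩)
  refine ⟨Z, ?_⟩
  have h1 := cG_eq (art := art) hπ hrep 𝔣 ⟨σ, fixes_iff.1 hσ⟩
  change cnt K H 𝔣 art σ = cnt K H 𝔣 art (rep (π ⟨σ, fixes_iff.1 hσ⟩)) at h1
  rw [h1]
  exact hZ

open Classical in
/-- The reduction to Galois groups with at most one noncyclic Sylow subgroup, for all number fields `K`
and without any hypothesis on the continuation. -/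
theorem main_a (ι : Qbar →+* ℂ) (K H : Sub) [NumberField K] [FiniteDimensional ℚ H] (hKH : K ≤ H)
    (hab : AbelianOver K H) (𝔣 : Ideals K) (art : Ideals K → GQ) (hart : IsArtin K H 𝔣 art) :
    StarkUpTo 1 ι K H 𝔣 art ↔
      ∀ ℓ : ℕ, ℓ.Prime → ∀ L : Sub, K ≤ L → L ≤ H → DegreePrimeTo ℓ L H →
        (∀ q : ℕ, q.Prime → q ≠ ℓ → CyclicSylow q K L) →
          ∃ n : ℕ, ¬ ℓ ∣ n ∧ StarkUpTo n ι K L 𝔣 art := by
  constructor
  · intro hS ℓ hℓ L hKL hLH _ _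
    exact ⟨1, fun h0 => hℓ.one_lt.ne' (Nat.dvd_one.1 h0),
      stark_down ι K L H hKL hLH hab 𝔣 art hart 1 hS⟩
  intro h W hW
  have hcont := cont_of_all ι K H hKH hab 𝔣 art hart (h 2 Nat.prime_two)
  obtain ⟨G, _, _, π, hπs, hπ, hJ⟩ := exists_quotient K H hKH hab
  choose rep hrep using hπs
  have hok : Ok H art rep 𝔣 :=
    ⟨fun g => hcont (rep g) (fixes_iff.2 (rep g).2), hart.fix, hart.mul⟩
  have hWpos : 0 < W := hW.1
  set Q := unitFunctions ι K H W hWpos π with hQ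
  have hPJ : ∀ (ℓ : ℕ), ℓ.Prime → ∀ J : Subgroup G, GoodSub ℓ J →
      ∃ n : ℕ, ¬ ℓ ∣ n ∧ PP H art rep Q n J 𝔣 := by
    intro ℓ hℓ J hg
    obtain ⟨L, hKL, hLH, hL⟩ := hJ J
    have h1 : DegreePrimeTo ℓ L H := by
      intro σ hσ hσℓ
      have hσK : Fixes K σ := hσ.mono hKL
      have h1 := (hL ⟨σ, fixes_iff.1 hσK⟩).1 hσ
      have h2 := (hπ (⟨σ, fixes_iff.1 hσK⟩ ^ ℓ)).2 hσℓ
      rw [map_pow] at h2
      exact (hπ ⟨σ, fixes_iff.1 hσK⟩).1 (hg.1 _ h1 h2)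
    have h2 : ∀ q : ℕ, q.Prime → q ≠ ℓ → CyclicSylow q K L := by
      intro q hq hqℓ σ τ hσ hτ hσq hτq
      have h1 := (hL (⟨σ, fixes_iff.1 hσ⟩ ^ q)).1 hσq
      have h2 := (hL (⟨τ, fixes_iff.1 hτ⟩ ^ q)).1 hτq
      rw [map_pow] at h1 h2
      rcases hg.2 q hq hqℓ _ _ h1 h2 with h3 | ⟨k, hk⟩
      · exact Or.inl ((hL ⟨σ, fixes_iff.1 hσ⟩).2 h3)
      · refine Or.inr ⟨k, ?_⟩
        rw [agree_iff]
        have h4 := (hL ((⟨σ, fixes_iff.1 hσ⟩ ^ k)⁻¹ * ⟨τ, fixes_iff.1 hτ⟩)).2 (by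
          rw [map_mul, map_inv, map_pow, mul_comm]; exact hk)
        exact h4
    obtain ⟨n, hn, h3⟩ := h ℓ hℓ L hKL hLH h1 h2
    exact ⟨n, hn, PP_of_stark hW hLH hπ hrep hL hok.fix hok.cont h3⟩
  -- the multiples of `dG` given by units, and the vanishing of `vG`
  have hmul : ∀ ℓ : ℕ, ℓ.Prime → ∃ M : ℤ, ¬ (ℓ : ℤ) ∣ M ∧ M • (dG H art rep 𝔣 : G → ℂ) ∈ Q ∧
      ∀ x, vG H art rep 𝔣 x = 0 := by
    intro ℓ hℓ
    obtain ⟨n, N, J, a, hn, hg, hrel⟩ := exists_norm_relation G ℓ hℓ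
    choose m hm hP using fun i => hPJ ℓ hℓ (J i) (hg i)
    have hn0 : (n : ℂ) ≠ 0 := by
      intro h0
      apply hn
      rw [Nat.cast_eq_zero] at h0
      rw [h0]
      exact dvd_zero _
    have hcomb : ∀ (F : G → ℂ) (x : G), ∑ i, ∑ g : G, (a i g : ℂ) * nm (J i) F (x * g) = n * F x := by
      intro F x
      rw [← comb_identity J a n hrel F x]
      refine Finset.sum_congr rfl fun i _ => Finset.sum_congr rfl fun g _ => ?_
      unfold nm
      congr 1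
      refine Finset.sum_congr rfl fun y _ => ?_
      split_ifs <;> simp
    refine ⟨(n : ℤ) * ∏ i, (m i : ℤ), ?_, ?_, ?_⟩
    · have hp : Prime (ℓ : ℤ) := Nat.prime_iff_prime_int.1 hℓ
      intro h0
      rcases hp.dvd_or_dvd h0 with h1 | h1
      · exact hn (by exact_mod_cast h1)
      · obtain ⟨i, -, hi⟩ := (hp.dvd_finsetProd_iff _).1 h1
        exact hm i (by exact_mod_cast hi)
    · have h1 : ((n : ℤ) * ∏ i, (m i : ℤ)) • (dG H art rep 𝔣 : G → ℂ) = ∑ i, ∑ g : G,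
          (a i g * ∏ j ∈ Finset.univ.erase i, (m j : ℤ)) • fun x : G =>
            (m i • fun x => nm (J i) (dG H art rep 𝔣) x) (x * g) := by
        funext x
        have h2 : ((∑ i, ∑ g : G,
            (a i g * ∏ j ∈ Finset.univ.erase i, (m j : ℤ)) • fun x : G =>
              (m i • fun x => nm (J i) (dG H art rep 𝔣) x) (x * g)) : G → ℂ) x =
            ∑ i, ∑ g : G, (∏ j, (m j : ℂ)) * ((a i g : ℂ) *
              nm (J i) (dG H art rep 𝔣) (x * g)) := by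
          rw [Finset.sum_apply]
          refine Finset.sum_congr rfl fun i _ => ?_
          rw [Finset.sum_apply]
          refine Finset.sum_congr rfl fun g _ => ?_
          rw [← Finset.mul_prod_erase Finset.univ (fun j => (m j : ℂ)) (Finset.mem_univ i),
            Pi.smul_apply, zsmul_eq_mul, Pi.smul_apply, nsmul_eq_mul]
          push_cast
          ring
        rw [h2]
        have h3 : ∑ i, ∑ g : G, (∏ j, (m j : ℂ)) * ((a i g : ℂ) *
              nm (J i) (dG H art rep 𝔣) (x * g)) =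
            (∏ j, (m j : ℂ)) * ∑ i, ∑ g : G, (a i g : ℂ) *
              nm (J i) (dG H art rep 𝔣) (x * g) := by
          rw [Finset.mul_sum]
          refine Finset.sum_congr rfl fun i _ => ?_
          rw [Finset.mul_sum]
        rw [h3, hcomb, Pi.smul_apply, zsmul_eq_mul]
        push_cast
        ring
      rw [h1]
      refine Q.sum_mem fun i _ => Q.sum_mem fun g _ => Q.zsmul_mem ?_ _
      have := unitFunctions_translate hWpos hKH hab π (hP i).2 (rep g)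
      rw [hrep] at this
      exact this
    · intro x
      have h1 := hcomb (vG H art rep 𝔣) x
      rw [Finset.sum_congr rfl fun i _ => Finset.sum_congr rfl fun g _ => by
        rw [(hP i).1, mul_zero]] at h1
      simp only [Finset.sum_const_zero] at h1
      rcases mul_eq_zero.1 h1.symm with h2 | h2
      · exact absurd h2 hn0
      · exact h2
  have hone : (1 : ℤ) ∈ (AddSubgroup.comap (zmultiplesHom (G → ℂ) (dG H art rep 𝔣)) Q) := by
    apply one_mem_of_prime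
    intro ℓ hℓ
    obtain ⟨M, hM, hMz, -⟩ := hmul ℓ hℓ
    exact ⟨M, hMz, hM⟩
  have hzQ : (dG H art rep 𝔣 : G → ℂ) ∈ Q := by
    have := AddSubgroup.mem_comap.1 hone
    simpa using this
  have hv0 := (hmul 2 Nat.prime_two).choose_spec.2.2
  obtain ⟨ε, hε, hε2⟩ := hzQ
  choose ZG hZG using fun g => hok.cont g
  refine ⟨fun σ => if hσ : Fixes K σ then ZG (π ⟨σ, fixes_iff.1 hσ⟩) else 0, ε, hε.mem, hε.ne_zero,
    ?_, hε.int, hε.int_inv, hε.abs, hε.root⟩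
  intro σ hσ
  have hdif : (if hσ : Fixes K σ then ZG (π ⟨σ, fixes_iff.1 hσ⟩) else 0) =
      ZG (π ⟨σ, fixes_iff.1 hσ⟩) := dif_pos hσ
  change IsZeta (cnt K H 𝔣 art σ) (if hσ : Fixes K σ then ZG (π ⟨σ, fixes_iff.1 hσ⟩) else 0) ∧
    (if hσ : Fixes K σ then ZG (π ⟨σ, fixes_iff.1 hσ⟩) else 0) 0 = 0 ∧
    _ = _ * deriv (if hσ : Fixes K σ then ZG (π ⟨σ, fixes_iff.1 hσ⟩) else 0) 0
  rw [hdif]
  refine ⟨?_, ?_, ?_⟩
  · have h1 := hZG (π ⟨σ, fixes_iff.1 hσ⟩)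
    rw [← cG_eq hπ hrep 𝔣 ⟨σ, fixes_iff.1 hσ⟩] at h1
    exact h1
  · rw [← vz_eq (hZG (π ⟨σ, fixes_iff.1 hσ⟩))]
    exact hv0 _
  · have h1 := hε2 ⟨σ, fixes_iff.1 hσ⟩
    rw [one_mul, ← dz_eq (hZG (π ⟨σ, fixes_iff.1 hσ⟩))]
    exact h1

end Pool.Agent.J4.H99.SRins
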